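import Pool.Agent.W225.KC.Nil

/-!
# The symmetric groups act on the tensor powers of an object of a symmetric monoidal category
-/

set_option autoImplicit false
set_option linter.unusedSectionVars false

open CategoryTheory MonoidalCategory Equiv

namespace Pool.Agent.W284.KCACT

open Pool.Agent.W492.MT (tpow)
open Pool.Agent.W492.KC

universe v u

section abs

/-- the permutation sending `0` to `p` and given by `e` on the rest -/
def D {n : ℕ} (p : Fin (n + 1)) (e : Perm (Fin n)) : Perm (Fin (n + 1)) :=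
  Equiv.Perm.decomposeFin.symm (p, e)

lemma up_eq {n : ℕ} (e : Perm (Fin n)) : up e = D 0 e := rfl

lemma D_zero {n : ℕ} (p : Fin (n + 1)) (e : Perm (Fin n)) : D p e 0 = p :=
  Equiv.Perm.decomposeFin_symm_apply_zero p e

lemma D_succ {n : ℕ} (p : Fin (n + 1)) (e : Perm (Fin n)) (x : Fin n) :
    D p e x.succ = swap 0 p (e x).succ :=
  Equiv.Perm.decomposeFin_symm_apply_succ e p x

lemma D0_succ {n : ℕ} (e : Perm (Fin n)) (x : Fin n) : D 0 e x.succ = (e x).succ := by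
  rw [D_succ, swap_self, refl_apply]

lemma exists_D {n : ℕ} (σ : Perm (Fin (n + 1))) : ∃ p e, σ = D p e :=
  ⟨(Equiv.Perm.decomposeFin σ).1, (Equiv.Perm.decomposeFin σ).2,
    (Equiv.symm_apply_apply Equiv.Perm.decomposeFin σ).symm⟩

lemma up_mul_D0 {n : ℕ} (τ θ : Perm (Fin n)) : D 0 τ * D 0 θ = D 0 (τ * θ) := by
  ext x
  refine Fin.cases ?_ (fun y => ?_) x
  · rw [Perm.mul_apply, D_zero, D_zero, D_zero]
  · rw [Perm.mul_apply, D0_succ, D0_succ, D0_succ, Perm.mul_apply]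

lemma up_mul_Ds {n : ℕ} (τ θ : Perm (Fin n)) (k : Fin n) :
    D 0 τ * D k.succ θ = D (τ k).succ (τ * θ) := by
  apply Equiv.ext
  intro x
  refine Fin.cases ?_ (fun y => ?_) x
  · rw [Perm.mul_apply, D_zero, D_zero, D0_succ]
  · rw [Perm.mul_apply, D_succ, D_succ, Perm.mul_apply]
    by_cases h : θ y = k
    · rw [h, swap_apply_right, swap_apply_right, D_zero]
    · rw [swap_apply_of_ne_of_ne (Fin.succ_ne_zero _) (fun h' => h (Fin.succ_injective _ h')),
        swap_apply_of_ne_of_ne (Fin.succ_ne_zero _)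
          (fun h' => h (τ.injective (Fin.succ_injective _ h'))), D0_succ]

lemma swap_mul_D0 {n : ℕ} (j : Fin (n + 1)) (θ : Perm (Fin n)) :
    swap 0 j * D 0 θ = D j θ := by
  apply Equiv.ext
  intro x
  refine Fin.cases ?_ (fun y => ?_) x
  · rw [Perm.mul_apply, D_zero, D_zero, swap_apply_left]
  · rw [Perm.mul_apply, D0_succ, D_succ]

lemma swap_mul_Ds_self {n : ℕ} (k : Fin (n + 1)) (θ : Perm (Fin n)) :
    swap 0 k * D k θ = D 0 θ := by
  rw [← swap_mul_D0, ← mul_assoc, swap_mul_self, one_mul]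

lemma swap_mul_Ds {n : ℕ} (j k : Fin n) (hjk : j ≠ k) (θ : Perm (Fin n)) :
    swap 0 j.succ * D k.succ θ = D k.succ (swap j k * θ) := by
  apply Equiv.ext
  intro x
  refine Fin.cases ?_ (fun y => ?_) x
  · rw [Perm.mul_apply, D_zero, D_zero]
    exact swap_apply_of_ne_of_ne (Fin.succ_ne_zero _) fun h => hjk (Fin.succ_injective _ h).symm
  · rw [Perm.mul_apply, D_succ, D_succ, Perm.mul_apply]
    by_cases h1 : θ y = k
    · rw [h1, swap_apply_right, swap_apply_left, swap_apply_right,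
        swap_apply_of_ne_of_ne (Fin.succ_ne_zero _) (fun h => hjk (Fin.succ_injective _ h))]
    · rw [swap_apply_of_ne_of_ne (Fin.succ_ne_zero _) (fun h' => h1 (Fin.succ_injective _ h'))]
      by_cases h2 : θ y = j
      · rw [h2, swap_apply_right, swap_apply_left, swap_apply_right]
      · rw [swap_apply_of_ne_of_ne (Fin.succ_ne_zero _) (fun h' => h2 (Fin.succ_injective _ h')),
          swap_apply_of_ne_of_ne h2 h1,
          swap_apply_of_ne_of_ne (Fin.succ_ne_zero _) (fun h' => h1 (Fin.succ_injective _ h'))]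

variable {M : Type*} [Monoid M] {n : ℕ} (ψ : Perm (Fin (n + 1)) →* M) (s : M)

def E (j : Fin (n + 1)) : M := ψ (swap 0 j) * s * ψ (swap 0 j)

lemma psi_swap_self (i j : Fin (n + 1)) : ψ (swap i j) * ψ (swap i j) = 1 := by
  rw [← map_mul, swap_mul_self, map_one]

lemma E_conj (hc : ∀ τ : Perm (Fin n), s * ψ (up τ) = ψ (up τ) * s) (τ : Perm (Fin (n + 1)))
    (j : Fin (n + 1)) : ψ τ * E ψ s j = E ψ s (τ j) * ψ τ := by
  obtain ⟨p, ρ, hρ⟩ := exists_D (τ * swap 0 j)
  have hp : p = τ j := by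
    have := congrArg (fun f : Perm (Fin (n + 1)) => f 0) hρ
    simp only [Perm.mul_apply, swap_apply_left, D_zero] at this
    exact this.symm
  rw [hp, ← swap_mul_D0] at hρ
  have h2 : D 0 ρ * swap 0 j = swap 0 (τ j) * τ := by
    have h3 : D 0 ρ = swap 0 (τ j) * (τ * swap 0 j) := by
      rw [hρ, ← mul_assoc, swap_mul_self, one_mul]
    rw [h3, mul_assoc, mul_assoc, swap_mul_self, mul_one]
  have hc' := hc ρ
  rw [up_eq] at hc'
  calc ψ τ * E ψ s j = ψ (τ * swap 0 j) * s * ψ (swap 0 j) := by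
        rw [E, map_mul]; simp only [mul_assoc]
    _ = ψ (swap 0 (τ j)) * (ψ (D 0 ρ) * s) * ψ (swap 0 j) := by
        rw [hρ, map_mul]; simp only [mul_assoc]
    _ = ψ (swap 0 (τ j)) * s * ψ (D 0 ρ * swap 0 j) := by
        rw [← hc', map_mul]; simp only [mul_assoc]
    _ = E ψ s (τ j) * ψ τ := by
        rw [h2, map_mul, E]; simp only [mul_assoc]

lemma E_zero : E ψ s 0 = s := by
  rw [E, swap_self]
  change ψ 1 * s * ψ 1 = s
  rw [map_one, one_mul, mul_one]

lemma E_sq (hs : s * s = 1) (j : Fin (n + 1)) : E ψ s j * E ψ s j = 1 := by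
  calc E ψ s j * E ψ s j = ψ (swap 0 j) * s * (ψ (swap 0 j) * ψ (swap 0 j)) * s *
        ψ (swap 0 j) := by rw [E]; simp only [mul_assoc]
    _ = ψ (swap 0 j) * (s * s) * ψ (swap 0 j) := by
        rw [psi_swap_self, mul_one]; simp only [mul_assoc]
    _ = 1 := by rw [hs, mul_one, psi_swap_self]

lemma E_braid (hs : s * s = 1) (hc : ∀ τ : Perm (Fin n), s * ψ (up τ) = ψ (up τ) * s)
    (hb : ∀ i : Fin (n + 1), i ≠ 0 →
      s * ψ (swap 0 i) * s = ψ (swap 0 i) * s * ψ (swap 0 i)) (i j : Fin (n + 1)) (hij : i ≠ j) :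
    E ψ s i * E ψ s j * E ψ s i = ψ (swap i j) := by
  set x : Fin (n + 1) := swap 0 i j with hx
  have hx0 : x ≠ 0 := by
    intro h
    have h2 : swap 0 i x = swap 0 i 0 := by rw [h]
    rw [hx, swap_apply_self, swap_apply_left] at h2
    exact hij h2.symm
  have h0 : E ψ s 0 * E ψ s x * E ψ s 0 = ψ (swap 0 x) := by
    rw [E_zero]
    calc s * E ψ s x * s = (s * ψ (swap 0 x) * s) * ψ (swap 0 x) * s := by
          rw [E]; simp only [mul_assoc]
      _ = ψ (swap 0 x) * s * (ψ (swap 0 x) * ψ (swap 0 x)) * s := by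
          rw [hb x hx0]; simp only [mul_assoc]
      _ = ψ (swap 0 x) := by rw [psi_swap_self, mul_one, mul_assoc, hs, mul_one]
  have hτ0 : swap 0 i 0 = i := swap_apply_left 0 i
  have hτx : swap 0 i x = j := by rw [hx, swap_apply_self]
  have c0 := E_conj ψ s hc (swap 0 i) 0
  have cx := E_conj ψ s hc (swap 0 i) x
  rw [hτ0] at c0
  rw [hτx] at cx
  have h1 : (E ψ s i * E ψ s j * E ψ s i) * ψ (swap 0 i) = ψ (swap i j) * ψ (swap 0 i) := by
    calc (E ψ s i * E ψ s j * E ψ s i) * ψ (swap 0 i)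
        = E ψ s i * E ψ s j * (E ψ s i * ψ (swap 0 i)) := by simp only [mul_assoc]
      _ = E ψ s i * (E ψ s j * ψ (swap 0 i)) * E ψ s 0 := by
          rw [← c0]; simp only [mul_assoc]
      _ = (E ψ s i * ψ (swap 0 i)) * E ψ s x * E ψ s 0 := by
          rw [← cx]; simp only [mul_assoc]
      _ = ψ (swap 0 i) * (E ψ s 0 * E ψ s x * E ψ s 0) := by
          rw [← c0]; simp only [mul_assoc]
      _ = ψ (swap 0 i * swap 0 x) := by rw [h0, map_mul]
      _ = ψ (swap i j * swap 0 i) := by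
          rw [mul_swap_eq_swap_mul, hτ0, hτx]
      _ = ψ (swap i j) * ψ (swap 0 i) := map_mul _ _ _
  calc E ψ s i * E ψ s j * E ψ s i
      = (E ψ s i * E ψ s j * E ψ s i) * ψ (swap 0 i) * ψ (swap 0 i) := by
        rw [mul_assoc _ (ψ (swap 0 i)) (ψ (swap 0 i)), psi_swap_self, mul_one]
    _ = ψ (swap i j) * ψ (swap 0 i) * ψ (swap 0 i) := by rw [h1]
    _ = ψ (swap i j) := by rw [mul_assoc, psi_swap_self, mul_one]

/-- the images of the transpositions `(0 j)` -/
def C (j : Fin (n + 2)) : M := Fin.cases (motive := fun _ => M) 1 (E ψ s) j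

lemma C_zero : C ψ s 0 = 1 := rfl

lemma C_succ (j : Fin (n + 1)) : C ψ s j.succ = E ψ s j := rfl

/-- the extension -/
def F (σ : Perm (Fin (n + 2))) : M :=
  C ψ s (Equiv.Perm.decomposeFin σ).1 * ψ (Equiv.Perm.decomposeFin σ).2

lemma F_D (p : Fin (n + 2)) (e : Perm (Fin (n + 1))) : F ψ s (D p e) = C ψ s p * ψ e := by
  unfold F D
  rw [Equiv.apply_symm_apply]

/-- **Abstract lemma**: extension of a homomorphism of `Perm (Fin (n + 1))` to
`Perm (Fin (n + 2))`. -/
theorem exists_ext (hs : s * s = 1) (hc : ∀ τ : Perm (Fin n), s * ψ (up τ) = ψ (up τ) * s)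
    (hb : ∀ i : Fin (n + 1), i ≠ 0 →
      s * ψ (swap 0 i) * s = ψ (swap 0 i) * s * ψ (swap 0 i)) :
    ∃ Ψ : Perm (Fin (n + 2)) →* M, (∀ τ, Ψ (up τ) = ψ τ) ∧ Ψ (swap 0 1) = s := by
  have hup : ∀ (τ : Perm (Fin (n + 1))) (ρ : Perm (Fin (n + 2))),
      F ψ s (D 0 τ * ρ) = ψ τ * F ψ s ρ := by
    intro τ ρ
    obtain ⟨k, θ, rfl⟩ := exists_D ρ
    refine Fin.cases ?_ (fun k => ?_) k
    · rw [up_mul_D0, F_D, F_D, C_zero, one_mul, one_mul, map_mul]
    · rw [up_mul_Ds, F_D, F_D, C_succ, C_succ, map_mul, ← mul_assoc, ← mul_assoc,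
        E_conj ψ s hc]
  have hsw : ∀ (j : Fin (n + 2)) (ρ : Perm (Fin (n + 2))),
      F ψ s (swap 0 j * ρ) = C ψ s j * F ψ s ρ := by
    intro j ρ
    obtain ⟨k, θ, rfl⟩ := exists_D ρ
    refine Fin.cases ?_ (fun k => ?_) k
    · rw [swap_mul_D0, F_D, F_D, C_zero, one_mul]
    · refine Fin.cases ?_ (fun j => ?_) j
      · rw [swap_self, C_zero, one_mul]
        rfl
      · by_cases hjk : j = k
        · rw [hjk, swap_mul_Ds_self, F_D, F_D, C_zero, C_succ, one_mul, ← mul_assoc,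
            E_sq ψ s hs, one_mul]
        · rw [swap_mul_Ds j k hjk, F_D, F_D, C_succ, C_succ, map_mul, ← mul_assoc, ← mul_assoc]
          congr 1
          have h := E_braid ψ s hs hc hb k j (fun h => hjk h.symm)
          rw [swap_comm j k, ← h]
          calc E ψ s k * (E ψ s k * E ψ s j * E ψ s k)
              = (E ψ s k * E ψ s k) * E ψ s j * E ψ s k := by simp only [mul_assoc]
            _ = E ψ s j * E ψ s k := by rw [E_sq ψ s hs, one_mul]
  refine ⟨⟨⟨F ψ s, ?_⟩, ?_⟩, ?_, ?_⟩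
  · have h1 : (1 : Perm (Fin (n + 2))) = D 0 1 := by
      apply Equiv.ext
      intro x
      refine Fin.cases ?_ (fun y => ?_) x
      · rw [D_zero]; rfl
      · rw [D0_succ]; rfl
    rw [h1, F_D, C_zero, map_one, mul_one]
  · intro σ ρ
    obtain ⟨p, e, rfl⟩ := exists_D σ
    change F ψ s (D p e * ρ) = F ψ s (D p e) * F ψ s ρ
    rw [← swap_mul_D0, mul_assoc, hsw, hup, swap_mul_D0, F_D, mul_assoc]
  · intro τ
    change F ψ s (D 0 τ) = ψ τ
    rw [F_D, C_zero, one_mul]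
  · change F ψ s (swap 0 1) = s
    have h := hsw 1 (D 0 1)
    have h1 : (D 0 1 : Perm (Fin (n + 2))) = 1 := by
      apply Equiv.ext
      intro x
      refine Fin.cases ?_ (fun y => ?_) x
      · rw [D_zero]; rfl
      · rw [D0_succ]; rfl
    rw [F_D, C_zero, one_mul, map_one, mul_one, h1, mul_one] at h
    rw [h]
    have h2 : C ψ s ((0 : Fin (n + 1)).succ) = s := by rw [C_succ, E_zero]
    exact h2

/-- only one braid relation is needed -/
lemma braid_all {n : ℕ} (ψ : Perm (Fin (n + 2)) →* M) (s : M)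
    (hc : ∀ τ : Perm (Fin (n + 1)), s * ψ (up τ) = ψ (up τ) * s)
    (hb : s * ψ (swap 0 1) * s = ψ (swap 0 1) * s * ψ (swap 0 1)) (i : Fin (n + 2))
    (hi : i ≠ 0) : s * ψ (swap 0 i) * s = ψ (swap 0 i) * s * ψ (swap 0 i) := by
  obtain ⟨k, rfl⟩ := Fin.exists_succ_eq.2 hi
  have h1 : (D 0 (swap 0 k) : Perm (Fin (n + 2))) * swap 0 1 =
      swap 0 k.succ * D 0 (swap 0 k) := by
    rw [mul_swap_eq_swap_mul, D_zero]
    congr 2
  have h2 : (D 0 (swap 0 k) : Perm (Fin (n + 2))) * D 0 (swap 0 k) = 1 := by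
    rw [up_mul_D0, swap_mul_self]
    apply Equiv.ext
    intro x
    refine Fin.cases ?_ (fun y => ?_) x
    · rw [D_zero]; rfl
    · rw [D0_succ]; rfl
  set w := ψ (D 0 (swap 0 k)) with hw
  have hww : w * w = 1 := by rw [hw, ← map_mul, h2, map_one]
  have hsw : s * w = w * s := hc (swap 0 k)
  have ht : ψ (swap 0 k.succ) = w * ψ (swap 0 1) * w := by
    rw [hw, ← map_mul, h1, map_mul, mul_assoc, ← hw, hww, mul_one]
  rw [ht]
  calc s * (w * ψ (swap 0 1) * w) * s = (s * w) * ψ (swap 0 1) * (w * s) := by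
        simp only [mul_assoc]
    _ = (w * s) * ψ (swap 0 1) * (s * w) := by rw [hsw]
    _ = w * (s * ψ (swap 0 1) * s) * w := by simp only [mul_assoc]
    _ = w * (ψ (swap 0 1) * s * ψ (swap 0 1)) * w := by rw [hb]
    _ = w * ψ (swap 0 1) * (w * w) * s * ψ (swap 0 1) * w := by
        rw [hww, mul_one]; simp only [mul_assoc]
    _ = w * ψ (swap 0 1) * w * (w * s) * ψ (swap 0 1) * w := by simp only [mul_assoc]
    _ = w * ψ (swap 0 1) * w * (s * w) * ψ (swap 0 1) * w := by rw [hsw]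
    _ = w * ψ (swap 0 1) * w * s * (w * ψ (swap 0 1) * w) := by simp only [mul_assoc]

end abs

section cat

variable {T : Type u} [Category.{v} T] [MonoidalCategory T]

/-- whiskering as a homomorphism of monoids -/
def wl (X Y : T) : End Y →* End (X ⊗ Y) where
  toFun f := (X ◁ (f : Y ⟶ Y) : X ⊗ Y ⟶ X ⊗ Y)
  map_one' := by
    change X ◁ 𝟙 Y = 𝟙 (X ⊗ Y)
    rw [whiskerLeft_id]
  map_mul' f g := by
    change X ◁ ((g : Y ⟶ Y) ≫ (f : Y ⟶ Y)) = (X ◁ (g : Y ⟶ Y)) ≫ (X ◁ (f : Y ⟶ Y))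
    rw [MonoidalCategory.whiskerLeft_comp]

variable [SymmetricCategory T]

/-- the condition on the transposition -/
def SwapCond (X : T) : ∀ n : ℕ, (Perm (Fin (n + 1)) →* End (tpow X (n + 1))) → Prop
  | 0, _ => True
  | m + 1, f => f (swap 0 1) = swp X (tpow X m)

/-- two consecutive actions -/
def St (X : T) (n : ℕ) : Type v :=
  {p : (Perm (Fin n) →* End (tpow X n)) × (Perm (Fin (n + 1)) →* End (tpow X (n + 1))) //
    (∀ σ, p.2 (up σ) = wl X (tpow X n) (p.1 σ)) ∧ SwapCond X n p.2}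

lemma step (X : T) (n : ℕ) (p : St X n) : ∃ q : St X (n + 1), q.1.1 = p.1.2 := by
  obtain ⟨⟨f, g⟩, h1, h2⟩ := p
  change ∀ σ, g (up σ) = wl X (tpow X n) (f σ) at h1
  change SwapCond X n g at h2
  let s : End (tpow X (n + 2)) := swp X (tpow X n)
  let ψ : Perm (Fin (n + 1)) →* End (tpow X (n + 2)) := (wl X (tpow X (n + 1))).comp g
  have hs : s * s = 1 := Pool.Agent.W225.KC.swp_swp X (tpow X n)
  have hc : ∀ τ : Perm (Fin n), s * ψ (up τ) = ψ (up τ) * s := by
    intro τ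
    have e : ψ (up τ) = (X ◁ (X ◁ (f τ : tpow X n ⟶ tpow X n)) :
        X ⊗ X ⊗ tpow X n ⟶ X ⊗ X ⊗ tpow X n) := by
      change wl X (tpow X (n + 1)) (g (up τ)) = _
      rw [h1]
      rfl
    rw [e]
    exact (Pool.Agent.W225.KC.swp_nat X (f τ : tpow X n ⟶ tpow X n)).symm
  have hb : ∀ i : Fin (n + 1), i ≠ 0 →
      s * ψ (swap 0 i) * s = ψ (swap 0 i) * s * ψ (swap 0 i) := by
    cases n with
    | zero =>
      intro i hi
      exact absurd (Fin.ext (by have := i.isLt; simp only [Fin.val_zero]; omega)) hi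
    | succ m =>
      apply braid_all ψ s hc
      have e : ψ (swap 0 1) = (X ◁ swp X (tpow X m) :
          X ⊗ X ⊗ X ⊗ tpow X m ⟶ X ⊗ X ⊗ X ⊗ tpow X m) := by
        change wl X (tpow X (m + 2)) (g (swap 0 1)) = _
        have h3 : g (swap 0 1) = swp X (tpow X m) := h2
        rw [h3]
        rfl
      rw [e]
      have hbr := Pool.Agent.W225.KC.swp_braid X (tpow X m)
      change swp X (X ⊗ tpow X m) ≫ ((X ◁ swp X (tpow X m)) ≫ swp X (X ⊗ tpow X m)) =
        (X ◁ swp X (tpow X m)) ≫ (swp X (X ⊗ tpow X m) ≫ (X ◁ swp X (tpow X m)))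
      exact hbr
  obtain ⟨Ψ, hΨ1, hΨ2⟩ := exists_ext ψ s hs hc hb
  exact ⟨⟨(g, Ψ), hΨ1, hΨ2⟩, rfl⟩

noncomputable def seq (X : T) : ∀ n, St X n
  | 0 => ⟨(1, 1), fun σ => by
      change (1 : End (tpow X 1)) = wl X (tpow X 0) 1
      rw [map_one]
      rfl, trivial⟩
  | n + 1 => (step X n (seq X n)).choose

lemma seq_succ (X : T) (n : ℕ) : (seq X (n + 1)).1.1 = (seq X n).1.2 :=
  (step X n (seq X n)).choose_spec

/-- **The symmetric groups act on the tensor powers.** -/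
theorem exists_permAction [Preadditive T] (X : T) :
    ∃ φ : ∀ n : ℕ, Equiv.Perm (Fin n) →* End (tpow X n), PermAction X φ := by
  refine ⟨fun n => (seq X n).1.1, ?_, ?_⟩
  · intro n σ
    change (seq X (n + 1)).1.1 (up σ) = wl X (tpow X n) ((seq X n).1.1 σ)
    rw [seq_succ]
    exact (seq X n).2.1 σ
  · intro n
    change (seq X (n + 2)).1.1 (swap 0 1) = swp X (tpow X n)
    rw [seq_succ]
    exact (seq X (n + 1)).2.2

end cat

end Pool.Agent.W284.KCACT
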